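import Mathlib

namespace Pool.Agent.Results.MP_b9311c_al.Full

/-- every maximal abelian subgroup is malnormal -/
def IsCSA (G : Type) [Group G] : Prop :=
  ∀ A : Subgroup G, (∀ x ∈ A, ∀ y ∈ A, x * y = y * x) →
    (∀ B : Subgroup G, (∀ x ∈ B, ∀ y ∈ B, x * y = y * x) → A ≤ B → B = A) →
    ∀ g, g ∉ A → ∀ x ∈ A, g * x * g⁻¹ ∈ A → x = 1

instance : Fact (Nat.Prime 5) := ⟨by norm_num⟩

abbrev R := ℤ_[5]

noncomputable abbrev φ : R →+* ZMod 5 := PadicInt.toZMod

lemma φ0 (z : R) : φ z = 0 ↔ (5 : R) ∣ z := by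
  rw [← RingHom.mem_ker, PadicInt.ker_toZMod, PadicInt.maximalIdeal_eq_span_p,
    Ideal.mem_span_singleton]
  simp

lemma φ5 : φ 5 = 0 := (φ0 5).2 dvd_rfl
lemma φ3 : φ 3 = 3 := map_ofNat φ 3
lemma φ15 : φ 15 = 0 := (φ0 15).2 ⟨3, by norm_num⟩

lemma clopen0 : IsClopen {z : R | φ z = 0} := by
  have : {z : R | φ z = 0} = Metric.ball 0 1 := by
    ext z
    rw [Set.mem_ofPred_eq, φ0, mem_ball_zero_iff, PadicInt.norm_lt_one_iff_dvd]
    simp
  rw [this]
  exact ⟨IsUltrametricDist.isClosed_ball _ _, Metric.isOpen_ball⟩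

lemma aniso_step (n : ℕ) : ∀ b c d : R, 3 * b ^ 2 - 5 * c ^ 2 - 15 * d ^ 2 = 0 →
    (5 : R) ^ n ∣ b ∧ (5 : R) ^ n ∣ c ∧ (5 : R) ^ n ∣ d := by
  induction n with
  | zero => simp
  | succ n ih =>
    intro b c d h
    have h1 := congrArg φ h
    simp only [map_sub, map_mul, map_pow, φ5, φ3, φ15, map_zero] at h1
    have hb : φ b = 0 := by revert h1; generalize φ b = x; simp only [zero_mul, sub_zero]; revert x; decide
    obtain ⟨b, rfl⟩ := (φ0 b).1 hb
    have h2 : 15 * b ^ 2 - c ^ 2 - 3 * d ^ 2 = 0 := by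
      apply mul_left_cancel₀ (show (5 : R) ≠ 0 by norm_num)
      linear_combination h
    have h3 := congrArg φ h2
    simp only [map_sub, map_mul, map_pow, φ3, φ15, map_zero, zero_mul] at h3
    have hcd : φ c = 0 ∧ φ d = 0 := by
      revert h3; generalize φ c = x; generalize φ d = y; revert x y; decide
    obtain ⟨c, rfl⟩ := (φ0 c).1 hcd.1
    obtain ⟨d, rfl⟩ := (φ0 d).1 hcd.2
    have h4 : 3 * b ^ 2 - 5 * c ^ 2 - 15 * d ^ 2 = 0 := by
      apply mul_left_cancel₀ (show (25 : R) ≠ 0 by norm_num)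
      linear_combination h
    obtain ⟨h5, h6, h7⟩ := ih b c d h4
    rw [pow_succ']
    exact ⟨mul_dvd_mul_left _ h5, mul_dvd_mul_left _ h6, mul_dvd_mul_left _ h7⟩

lemma aniso (b c d : R) (h : 3 * b ^ 2 - 5 * c ^ 2 - 15 * d ^ 2 = 0) : b = 0 ∧ c = 0 ∧ d = 0 := by
  have key : ∀ z : R, (∀ n, (5 : R) ^ n ∣ z) → z = 0 := by
    intro z hz
    by_contra h0
    have hu : ¬ IsUnit (5 : R) := fun hu => by
      have := hu.map φ
      rw [φ5] at this
      exact not_isUnit_zero this
    obtain ⟨n, hn⟩ := FiniteMultiplicity.of_not_isUnit hu h0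
    exact hn (hz _)
  exact ⟨key _ fun n => (aniso_step n b c d h).1, key _ fun n => (aniso_step n b c d h).2.1,
    key _ fun n => (aniso_step n b c d h).2.2⟩

def S : Set (R × R × R × R) := {x | x.1 ^ 2 + 3 * x.2.1 ^ 2 - 5 * x.2.2.1 ^ 2 - 15 * x.2.2.2 ^ 2 = 1 ∧
  φ ((x.1 - 1) * (x.1 - 2)) = 0}

def G : Type := S

noncomputable instance : TopologicalSpace G := inferInstanceAs (TopologicalSpace S)
instance : T2Space G := inferInstanceAs (T2Space S)
instance : TotallyDisconnectedSpace G := inferInstanceAs (TotallyDisconnectedSpace S)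
instance : CompactSpace G := by
  have : IsClosed S := by
    refine IsClosed.inter (isClosed_eq (by fun_prop) continuous_const) ?_
    exact clopen0.1.preimage (f := fun x : R × R × R × R => (x.1 - 1) * (x.1 - 2)) (by fun_prop)
  exact isCompact_iff_compactSpace.1 this.isCompact

def G.a (x : G) : R := x.1.1
def G.b (x : G) : R := x.1.2.1
def G.c (x : G) : R := x.1.2.2.1
def G.d (x : G) : R := x.1.2.2.2

lemma G.n (x : G) : x.a ^ 2 + 3 * x.b ^ 2 - 5 * x.c ^ 2 - 15 * x.d ^ 2 = 1 := x.2.1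
lemma G.r (x : G) : (φ x.a - 1) * (φ x.a - 2) = 0 := by
  have := x.2.2
  rwa [map_mul, map_sub, map_sub, map_one, map_ofNat] at this
lemma G.n5 (x : G) : φ x.a ^ 2 + 3 * φ x.b ^ 2 = 1 := by
  have := congrArg φ x.n
  simpa only [map_sub, map_add, map_mul, map_pow, φ5, φ3, φ15, map_one, zero_mul, sub_zero] using this

@[ext] lemma G.ext {x y : G} (h1 : x.a = y.a) (h2 : x.b = y.b) (h3 : x.c = y.c) (h4 : x.d = y.d) :
    x = y := Subtype.ext (Prod.ext h1 (Prod.ext h2 (Prod.ext h3 h4)))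

noncomputable instance : Mul G := ⟨fun x y => ⟨(x.a * y.a - 3 * x.b * y.b + 5 * x.c * y.c + 15 * x.d * y.d,
    x.a * y.b + x.b * y.a - 5 * x.c * y.d + 5 * x.d * y.c,
    x.a * y.c + x.c * y.a - 3 * x.b * y.d + 3 * x.d * y.b,
    x.a * y.d + x.d * y.a + x.b * y.c - x.c * y.b), by
      have hx := x.n
      have hy := y.n
      show _ = (1 : R)
      linear_combination (y.a ^ 2 + 3 * y.b ^ 2 - 5 * y.c ^ 2 - 15 * y.d ^ 2) * hx + hy, by
      have h1 := x.r
      have h2 := y.r
      have h3 := x.n5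
      have h4 := y.n5
      simp only [map_sub, map_add, map_mul, φ5, φ3, φ15, map_one, zero_mul, add_zero, map_ofNat φ 2]
      revert h1 h2 h3 h4
      generalize φ x.a = p; generalize φ x.b = q; generalize φ y.a = r; generalize φ y.b = s
      revert p q r s
      decide⟩⟩
noncomputable instance : One G := ⟨⟨(1, 0, 0, 0), by simp, by simp⟩⟩
noncomputable instance : Inv G := ⟨fun x => ⟨(x.a, -x.b, -x.c, -x.d), by
  have := x.n
  show _ = (1 : R)
  linear_combination this, x.2.2⟩⟩

@[simp] lemma mul_a (x y : G) :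
  (x * y).a = x.a * y.a - 3 * x.b * y.b + 5 * x.c * y.c + 15 * x.d * y.d := rfl
@[simp] lemma mul_b (x y : G) :
  (x * y).b = x.a * y.b + x.b * y.a - 5 * x.c * y.d + 5 * x.d * y.c := rfl
@[simp] lemma mul_c (x y : G) :
  (x * y).c = x.a * y.c + x.c * y.a - 3 * x.b * y.d + 3 * x.d * y.b := rfl
@[simp] lemma mul_d (x y : G) : (x * y).d = x.a * y.d + x.d * y.a + x.b * y.c - x.c * y.b := rfl
@[simp] lemma one_a : (1 : G).a = 1 := rfl
@[simp] lemma one_b : (1 : G).b = 0 := rfl
@[simp] lemma one_c : (1 : G).c = 0 := rfl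
@[simp] lemma one_d : (1 : G).d = 0 := rfl
@[simp] lemma inv_a (x : G) : x⁻¹.a = x.a := rfl
@[simp] lemma inv_b (x : G) : x⁻¹.b = -x.b := rfl
@[simp] lemma inv_c (x : G) : x⁻¹.c = -x.c := rfl
@[simp] lemma inv_d (x : G) : x⁻¹.d = -x.d := rfl

noncomputable instance : Group G := Group.ofLeftAxioms
  (fun x y z => by ext <;> simp only [mul_a, mul_b, mul_c, mul_d] <;> ring)
  (fun x => by ext <;> simp)
  (fun x => by
    have := x.n
    ext <;> simp only [mul_a, mul_b, mul_c, mul_d, inv_a, inv_b, inv_c, inv_d, one_a, one_b,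
      one_c, one_d]
    · linear_combination this
    all_goals ring)

@[fun_prop] lemma ca : Continuous G.a := continuous_fst.comp continuous_subtype_val
@[fun_prop] lemma cb : Continuous G.b := (continuous_fst.comp continuous_snd).comp continuous_subtype_val
@[fun_prop] lemma cc : Continuous G.c :=
  (continuous_fst.comp (continuous_snd.comp continuous_snd)).comp continuous_subtype_val
@[fun_prop] lemma cd : Continuous G.d :=
  (continuous_snd.comp (continuous_snd.comp continuous_snd)).comp continuous_subtype_val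

instance : IsTopologicalGroup G where
  continuous_mul := Continuous.subtype_mk (by fun_prop) _
  continuous_inv := Continuous.subtype_mk (by fun_prop) _

lemma comm_iff (x y : G) : x * y = y * x ↔
    x.c * y.d = x.d * y.c ∧ x.b * y.d = x.d * y.b ∧ x.b * y.c = x.c * y.b := by
  constructor
  · intro h
    have h1 := congrArg G.b h
    have h2 := congrArg G.c h
    have h3 := congrArg G.d h
    simp only [mul_b, mul_c, mul_d] at h1 h2 h3
    refine ⟨mul_left_cancel₀ (show (10 : R) ≠ 0 by norm_num) (by linear_combination -h1),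
      mul_left_cancel₀ (show (6 : R) ≠ 0 by norm_num) (by linear_combination -h2),
      mul_left_cancel₀ (show (2 : R) ≠ 0 by norm_num) (by linear_combination h3)⟩
  · rintro ⟨h1, h2, h3⟩
    ext <;> simp only [mul_a, mul_b, mul_c, mul_d]
    · ring
    · linear_combination -10 * h1
    · linear_combination -6 * h2
    · linear_combination 2 * h3

lemma eq_one {x : G} (h1 : x.b = 0) (h2 : x.c = 0) (h3 : x.d = 0) : x = 1 := by
  have hn := x.n
  have : (x.a - 1) * (x.a + 1) = 0 := by rw [h1, h2, h3] at hn; linear_combination hn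
  rcases mul_eq_zero.1 this with h | h
  · ext <;> simp [h1, h2, h3, sub_eq_zero.1 h]
  · exfalso
    have := x.r
    rw [eq_neg_of_add_eq_zero_left h, map_neg, map_one] at this
    revert this; decide

lemma ct {x u v : G} (hx : x ≠ 1) (hu : x * u = u * x) (hv : x * v = v * x) : u * v = v * u := by
  obtain ⟨u1, u2, u3⟩ := (comm_iff _ _).1 hu
  obtain ⟨v1, v2, v3⟩ := (comm_iff _ _).1 hv
  rw [comm_iff]
  by_cases hb : x.b = 0
  · by_cases hc : x.c = 0
    · have hd : x.d ≠ 0 := fun hd => hx (eq_one hb hc hd)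
      exact ⟨mul_left_cancel₀ hd (by linear_combination u.d * v1 - v.d * u1),
        mul_left_cancel₀ hd (by linear_combination u.d * v2 - v.d * u2),
        mul_left_cancel₀ hd (by linear_combination u.c * v2 - v.c * u2 + (v.c * u.d - u.c * v.d) * hb)⟩
    · exact ⟨mul_left_cancel₀ hc (by linear_combination u.c * v1 - v.c * u1),
        mul_left_cancel₀ hc (by linear_combination u.d * v3 - v.d * u3 + u.c * v2 - v.c * u2 + x.d * u.c * v.b * 0 + (v.c * u2 - u.c * v2) + x.b * 0 + (v.d * u.c - u.d * v.c) * hb),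
        mul_left_cancel₀ hc (by linear_combination u.c * v3 - v.c * u3)⟩
  · exact ⟨mul_left_cancel₀ hb (by linear_combination u.c * v2 - u.d * v3 + v.b * u1 * 0 + u.b * 0 + v.b * (-u1)),
      mul_left_cancel₀ hb (by linear_combination u.b * v2 - v.b * u2),
      mul_left_cancel₀ hb (by linear_combination u.b * v3 - v.b * u3)⟩

lemma conj_comm {x g : G} (hx : x ≠ 1) (h : x * (g * x * g⁻¹) = (g * x * g⁻¹) * x) :
    x * g = g * x := by
  have e : (g * x * g⁻¹) * g = g * x := by group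
  have ha : (g * x * g⁻¹).a = x.a := by
    have := g.n
    simp only [mul_a, mul_b, mul_c, mul_d, inv_a, inv_b, inv_c, inv_d]
    linear_combination x.a * this
  generalize g * x * g⁻¹ = y at h e ha
  obtain ⟨h1, h2, h3⟩ := (comm_iff _ _).1 h
  have hx1 := x.n
  have hy1 := y.n
  rw [ha] at hy1
  have hq : (3 * (x.b - y.b) ^ 2 - 5 * (x.c - y.c) ^ 2 - 15 * (x.d - y.d) ^ 2) *
      (3 * (x.b + y.b) ^ 2 - 5 * (x.c + y.c) ^ 2 - 15 * (x.d + y.d) ^ 2) = 0 := by
    linear_combination (300 * (x.c * y.d - x.d * y.c)) * h1 - (180 * (x.b * y.d - x.d * y.b)) * h2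
      - (60 * (x.b * y.c - x.c * y.b)) * h3 + ((3 * x.b ^ 2 - 5 * x.c ^ 2 - 15 * x.d ^ 2) -
        (3 * y.b ^ 2 - 5 * y.c ^ 2 - 15 * y.d ^ 2)) * (hx1 - hy1)
  rcases mul_eq_zero.1 hq with hq | hq
  · obtain ⟨q1, q2, q3⟩ := aniso _ _ _ hq
    have : y = x := G.ext ha (sub_eq_zero.1 q1).symm (sub_eq_zero.1 q2).symm (sub_eq_zero.1 q3).symm
    rwa [this] at e
  · exfalso
    obtain ⟨q1, q2, q3⟩ := aniso _ _ _ hq
    have e1 := congrArg G.b e
    have e2 := congrArg G.c e
    have e3 := congrArg G.d e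
    simp only [mul_b, mul_c, mul_d, ha, eq_neg_of_add_eq_zero_right q1,
      eq_neg_of_add_eq_zero_right q2, eq_neg_of_add_eq_zero_right q3] at e1 e2 e3
    have hg : 2 * g.a ≠ 0 := by
      refine mul_ne_zero (by norm_num) fun h0 => ?_
      have := g.r
      rw [h0, map_zero] at this
      revert this; decide
    exact hx (eq_one (mul_left_cancel₀ hg (by linear_combination -e1))
      (mul_left_cancel₀ hg (by linear_combination -e2))
      (mul_left_cancel₀ hg (by linear_combination -e3)))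

lemma csa : IsCSA G := by
  intro A hA hmax g hg x hx hgx
  by_contra h1
  have e : Subgroup.centralizer {x} = A := by
    apply hmax
    · intro u hu v hv
      exact ct h1 (hu x rfl) (hv x rfl)
    · rintro u hu _ rfl
      exact hA _ hx _ hu
  apply hg
  rw [← e]
  rintro _ rfl
  exact conj_comm h1 (hA _ hx _ hgx)

def U : Subgroup G where
  carrier := {x | φ x.a = 1 ∧ φ x.b = 0 ∧ φ x.c = 0 ∧ φ x.d = 0}
  mul_mem' := by
    rintro x y ⟨h1, h2, h3, h4⟩ ⟨h5, h6, h7, h8⟩
    simp [h1, h2, h3, h4, h5, h6, h7, h8]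
  one_mem' := by simp
  inv_mem' := by
    rintro x ⟨h1, h2, h3, h4⟩
    simp [h1, h2, h3, h4]

instance : U.Normal := ⟨by
  rintro x ⟨h1, h2, h3, h4⟩ g
  have := g.n5
  refine ⟨?_, ?_, ?_, ?_⟩ <;>
    simp only [mul_a, mul_b, mul_c, mul_d, inv_a, inv_b, inv_c, inv_d, map_add, map_sub, map_mul,
      map_neg, h1, h2, h3, h4, φ5, φ3, φ15]
  · linear_combination this
  all_goals ring⟩

lemma U_open : IsOpen (U : Set G) := by
  have : (U : Set G) = (fun x : G => x.a - 1) ⁻¹' {z | φ z = 0} ∩ (G.b ⁻¹' {z | φ z = 0} ∩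
      (G.c ⁻¹' {z | φ z = 0} ∩ G.d ⁻¹' {z | φ z = 0})) := by
    ext x
    simp only [Set.mem_inter_iff, Set.mem_preimage, Set.mem_ofPred_eq, map_sub, map_one, sub_eq_zero]
    rfl
  rw [this]
  exact (clopen0.2.preimage (by fun_prop)).inter ((clopen0.2.preimage cb).inter
    ((clopen0.2.preimage cc).inter (clopen0.2.preimage cd)))

lemma half : ∃ t : R, 2 * t = 1 := by
  have : IsUnit (2 : R) := by
    by_contra h
    have h2 : (2 : R) ∈ IsLocalRing.maximalIdeal R := h
    rw [← PadicInt.ker_toZMod, RingHom.mem_ker, map_ofNat] at h2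
    revert h2; decide
  exact this.exists_right_inv

lemma ord_eq {p q : ℕ} (hp : p.Prime) (hq : q.Prime) (h : IsPGroup p (G ⧸ U)) (x : G)
    (h1 : x ∉ U) (h2 : x ^ q ∈ U) : q = p := by
  have : Fact q.Prime := ⟨hq⟩
  obtain ⟨k, hk⟩ := h (x : G ⧸ U)
  have ho : orderOf (x : G ⧸ U) = q := orderOf_eq_prime
    (by rw [← QuotientGroup.mk_pow, QuotientGroup.eq_one_iff]; exact h2)
    (by rw [Ne, QuotientGroup.eq_one_iff]; exact h1)
  have := orderOf_dvd_of_pow_eq_one hk
  rw [ho] at this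
  exact (Nat.prime_dvd_prime_iff_eq hq hp).1 (hq.dvd_of_dvd_pow this)

theorem result : ∃ (G : Type) (_ : Group G) (_ : TopologicalSpace G), IsTopologicalGroup G ∧
    CompactSpace G ∧ T2Space G ∧ TotallyDisconnectedSpace G ∧ (∃ x y : G, x * y ≠ y * x) ∧
    IsCSA G ∧ ∃ (U : Subgroup G) (_ : U.Normal), IsOpen (U : Set G) ∧
      ∀ p : ℕ, p.Prime → ¬ IsPGroup p (G ⧸ U) := by
  obtain ⟨t, ht⟩ := half
  have ht5 : φ t = 3 := by
    have := congrArg φ ht
    rw [map_mul, map_ofNat, map_one] at this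
    revert this; generalize φ t = s; revert s; decide
  let w : G := ⟨(-t, t, 0, 0), by show _ = (1 : R); linear_combination (2 * t + 1) * ht, by
    simp only [map_mul, map_sub, map_neg, map_one, map_ofNat φ 2, ht5]; decide⟩
  let z : G := ⟨(-9, 0, 4, 0), by show _ = (1 : R); norm_num, by
    simp only [map_mul, map_sub, map_neg, map_one, map_ofNat φ 2, map_ofNat φ 9]; decide⟩
  have wa : φ w.a = -3 := by rw [← ht5, ← map_neg]; rfl
  have wb : φ w.b = 3 := ht5
  have wc : φ w.c = 0 := map_zero φ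
  have wd : φ w.d = 0 := map_zero φ
  have za : φ z.a = -9 := by rw [← map_ofNat φ 9, ← map_neg]; rfl
  have zb : φ z.b = 0 := map_zero φ
  have zc : φ z.c = 4 := map_ofNat φ 4
  have zd : φ z.d = 0 := map_zero φ
  refine ⟨G, inferInstance, inferInstance, inferInstance, inferInstance, inferInstance,
    inferInstance, ⟨w, z, fun h => ?_⟩, csa, U, inferInstance, U_open, fun p hp h => ?_⟩
  · have := congrArg φ ((comm_iff _ _).1 h).2.2
    rw [map_mul, map_mul, wb, zc, wc, zb] at this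
    revert this; decide
  · have h3 : 3 = p := by
      refine ord_eq hp (by norm_num) h w (fun hw => ?_) ?_
      · have := hw.2.1
        rw [wb] at this
        revert this; decide
      · refine ⟨?_, ?_, ?_, ?_⟩ <;>
          simp only [pow_succ, pow_zero, one_mul, mul_a, mul_b, mul_c, mul_d, map_add, map_sub,
            map_mul, wa, wb, wc, wd, φ5, φ3, φ15] <;> decide
    have h5 : 5 = p := by
      refine ord_eq hp (by norm_num) h z (fun hw => ?_) ?_
      · have := hw.2.2.1
        rw [zc] at this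
        revert this; decide
      · refine ⟨?_, ?_, ?_, ?_⟩ <;>
          simp only [pow_succ, pow_zero, one_mul, mul_a, mul_b, mul_c, mul_d, map_add, map_sub,
            map_mul, za, zb, zc, zd, φ5, φ3, φ15] <;> decide
    omega

end Pool.Agent.Results.MP_b9311c_al.Full
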